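import Mathlib
import Pool.Agent.Helper22K9.Trp.Pair

/-!
# Prime triples: a proportion `1 / 21` of all pairs `(d', d)`, and of the triples of ANY finite set

For every `ε > 0` there is a constant `N₀` such that for every `η > 0` and all large `x` the following holds.

* For every `D` between `N₀` and `x ^ (1 / 2)` (so in particular for every `D` between `N₀` and `(log x) ^ 2`):
  among the pairs of even numbers `2 ≤ d' < d ≤ D`, each counted with the weight `(D - d) S(0, d', d)`
  (the singular series times the number of the translates of `{0, d', d}` in `{1, ..., D}`), a proportion of at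
  least `1 / 21 - ε` satisfies `π₃(x, d', d) ≥ x ^ (1 - η)`.
* For EVERY set `A` of at least `N₀` integers in `[0, x ^ (1 / 2)]`, the sum of the singular series over the
  triples `a < b < c` of `A` with `π₃(x, c - b, c - a) ≥ x ^ (1 - η)` is at least `(1 / 21 - ε) |A| ^ 3 / 6`.

Proof: the simultaneous coloured Maynard-Tao theorem (starting file `Pool.Agent.Y877.coreT`: in every family of
eight classes of `K` rough shifts three shifts from three different classes are simultaneously prime), boxes in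
dense sets of `8`-tuples, the inequality of Moon-Moser and de Caen for the Turan numbers of `3`-graphs
(`1 / 21 = 1 / choose 7 2`), and an average over the residue classes modulo the product of the small primes.
-/

set_option autoImplicit false

namespace Pool.Agent.Results.MP_1039f5_nt.ProportionOfTriples

open Finset

/-- the singular series of `{0, d', d}` -/
noncomputable def S (d' d : ℕ) : ℝ := ∏' p : Nat.Primes,
  ((1 - ((((({0, d', d} : Finset ℕ).image (fun n => n % (p : ℕ))).card : ℕ) : ℝ) / ((p : ℕ) : ℝ)))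
    / (1 - 1 / ((p : ℕ) : ℝ)) ^ 3)

/-- the number of primes `p ≤ x` with `p - d`, `p - d'` prime -/
noncomputable def pi3 (x : ℝ) (d' d : ℕ) : ℕ :=
  ((range (⌊x⌋₊ + 1)).filter (fun p => p.Prime ∧ (p - d).Prime ∧ (p - d').Prime)).card

/-- the pairs of even numbers `2 ≤ d' < d ≤ D` -/
def pairs (D : ℕ) : Finset (ℕ × ℕ) :=
  (Icc 2 D ×ˢ Icc 2 D).filter (fun v => Even v.1 ∧ Even v.2 ∧ v.1 < v.2)

open Classical in
/-- **A proportion `1 / 21` of the prime triples.** -/
theorem result (ε : ℝ) (hε : 0 < ε) : ∃ N₀ : ℕ, ∀ η : ℝ, 0 < η → ∃ X : ℝ, ∀ x : ℝ, X ≤ x →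
    (∀ D : ℕ, N₀ ≤ D → (D : ℝ) ^ 2 ≤ x →
      (1 / 21 - ε) * ∑ v ∈ pairs D, ((D : ℝ) - v.2) * S v.1 v.2 ≤
        ∑ v ∈ (pairs D).filter (fun v => x ^ (1 - η) ≤ (pi3 x v.1 v.2 : ℝ)),
          ((D : ℝ) - v.2) * S v.1 v.2) ∧
    (∀ A : Finset ℕ, N₀ ≤ A.card → (∀ a ∈ A, (a : ℝ) ^ 2 ≤ x) →
      (1 / 21 - ε) * ((A.card : ℝ) ^ 3 / 6) ≤
        ∑ u ∈ (A ×ˢ A ×ˢ A).filter (fun u => u.1 < u.2.1 ∧ u.2.1 < u.2.2 ∧
            x ^ (1 - η) ≤ (pi3 x (u.2.2 - u.2.1) (u.2.2 - u.1) : ℝ)),
          S (u.2.2 - u.2.1) (u.2.2 - u.1)) := by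
  obtain ⟨N₁, h1⟩ := Pool.Agent.Helper22K9.Trp.prop ε hε
  obtain ⟨N₂, h2⟩ := Pool.Agent.Helper22K9.Trp.trip ε hε
  refine ⟨max N₁ N₂, fun η hη => ?_⟩
  obtain ⟨X₁, h1⟩ := h1 η hη
  obtain ⟨X₂, h2⟩ := h2 η hη
  refine ⟨max X₁ X₂, fun x hx => ⟨fun D hD hDx => ?_, fun A hA hAx => ?_⟩⟩
  · exact h1 x ((le_max_left _ _).trans hx) D ((le_max_left _ _).trans hD) hDx
  · exact h2 x ((le_max_right _ _).trans hx) A ((le_max_right _ _).trans hA) hAx

end Pool.Agent.Results.MP_1039f5_nt.ProportionOfTriples
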