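import Pool.Agent.Helper32K9.Reg.Trip

set_option autoImplicit false

/-!
# Patterns of regular elements in the sets of prime triples

Let `0 < d' < d` and let the singular series of `{0, d', d}` be different from zero. `R d' d r` is the set of the
`n` for which all prime factors of `n`, `n + (d - d')`, `n + d` are larger than `n ^ (1 / r)`; it contains the set
of the `n = p - d` for which `p`, `p - d'`, `p - d` are prime. Let `A` be an ARBITRARY subset of `R d' d r`, for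
example this set of prime triples. In every interval `(X, X + Y]`, `X ^ θ ≤ Y ≤ X / 2`, all but at most
`ε Y / log ^ 3 X` of the elements of `A` are typical: they are regular points of `A` (right order in all
intervals of length between `log ^ 3 X / c` and `Y` around them, constant density up to `δ` at all but `B` dyadic
scales) and they are the centres of at least `c D ^ m / (log X) ^ (3 ((2 K + 1) ^ m - 1))` patterns `n + f · d`
(`|f i| ≤ K`) with difference vectors in `{1, ..., D} ^ m` ALL OF WHOSE ELEMENTS are regular points of `A`.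
-/

namespace Pool.Agent.Results.MP_1039f5_nt.RegularPatterns

open Filter
open Pool.Agent.Helper32K9.Typ (Typical)
open Pool.Agent.Helper32K9.Trip (Adm R Al)

/-- **Patterns of regular elements.** -/
theorem result (d' d : ℕ) (hd : Adm d' d) (θ : ℝ) (hθ : 0 < θ) (hθ1 : θ ≤ 1) :
    ∃ r₀ : ℕ, 2 ≤ r₀ ∧ ∀ r : ℕ, r₀ ≤ r →
      {n : ℕ | n.Prime ∧ (n + (d - d')).Prime ∧ (n + d).Prime} ⊆ R d' d r ∧ Al d' d r ⊆ R d' d r ∧
      (∃ κ : ℝ, 0 < κ ∧ ∀ᶠ X : ℕ in atTop, ∀ Y : ℕ, (X : ℝ) ^ θ ≤ Y → Y ≤ X →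
        κ * Y / Real.log X ^ 3 ≤ ((Al d' d r ∩ Set.Ioc X (X + Y)).ncard : ℝ)) ∧
      ∀ m K : ℕ, 1 ≤ K → ∀ ε : ℝ, 0 < ε → ∃ c : ℝ, 0 < c ∧ ∀ δ : ℝ, 0 < δ → ∃ B : ℕ,
        ∀ᶠ X : ℕ in atTop, ∀ Y D : ℕ, (X : ℝ) ^ θ ≤ Y → 2 * Y ≤ X → Real.log X ^ B ≤ D → D ≤ Y →
          ∀ A : Set ℕ, A ⊆ R d' d r →
          (((A ∩ Set.Ioc X (X + Y)) \ Typical A 3 c δ B K m X Y D).ncard : ℝ) ≤
            ε * Y / Real.log X ^ 3 := by
  obtain ⟨r₀, hr₀, h⟩ := Pool.Agent.Helper32K9.Trip.main hd θ hθ hθ1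
  refine ⟨r₀, hr₀, fun r hr => ?_⟩
  obtain ⟨h1, h2, -⟩ := h r hr
  refine ⟨fun n hn => ?_, fun n hn => hn.1, h1, fun m K hK ε hε => ?_⟩
  · exact Pool.Agent.Helper32K9.Trip.prime_mem (hr₀.trans hr) ⟨hd.1, hd.2.1⟩ hn.1 hn.2.1 hn.2.2
  · obtain ⟨c, hc, h4⟩ := h2 m K hK ε hε
    refine ⟨c, hc, fun δ hδ => ?_⟩
    obtain ⟨B, h5⟩ := h4 δ hδ
    refine ⟨B, ?_⟩
    filter_upwards [h5] with X hX Y D k1 k2 k3 k4 A hA
    exact hX Y D k1 k2 k3 k4 A (fun n hn q hq hdv => hA hn q hq hdv)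

end Pool.Agent.Results.MP_1039f5_nt.RegularPatterns
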