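import Pool.Agent.Helper32K9.Reg.Trip

set_option autoImplicit false

/-!
# Frequent gap vectors at typical elements of dense sets of rough triples

Let `0 < d' < d` with nonzero singular series of `{0, d', d}`, and let `A` be an arbitrary subset of `R d' d r`
(the set of the `n` such that all prime factors of `n`, `n + (d - d')`, `n + d` are larger than `n ^ (1 / r)`)
with at least `c₀ Y / log ^ 3 X` elements in `(X, X + Y]`. Then at least `κ (log X) ^ (3 l)` vectors `h`, with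
`h i ≤ W log ^ 3 X`, are the vector of the next `l` gaps of `A` after at least `κ Y / (log X) ^ (3 (l + 1))`
elements of `A` in `(X, X + Y]` which are typical: regular points of `A` and centres of the right number of
`m`-dimensional patterns all of whose elements are regular points of `A`.
-/

namespace Pool.Agent.Results.MP_1039f5_nt.TypicalGapVectors

open Filter
open Pool.Agent.Helper32K9.Typ (Typical NextGaps)
open Pool.Agent.Helper32K9.Trip (Adm R Al)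

/-- **Frequent gap vectors at typical elements.** -/
theorem result (d' d : ℕ) (hd : Adm d' d) (θ : ℝ) (hθ : 0 < θ) (hθ1 : θ ≤ 1) :
    ∃ r₀ : ℕ, 2 ≤ r₀ ∧ ∀ r : ℕ, r₀ ≤ r →
      {n : ℕ | n.Prime ∧ (n + (d - d')).Prime ∧ (n + d).Prime} ⊆ R d' d r ∧ Al d' d r ⊆ R d' d r ∧
      (∃ κ : ℝ, 0 < κ ∧ ∀ᶠ X : ℕ in atTop, ∀ Y : ℕ, (X : ℝ) ^ θ ≤ Y → Y ≤ X →
        κ * Y / Real.log X ^ 3 ≤ ((Al d' d r ∩ Set.Ioc X (X + Y)).ncard : ℝ)) ∧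
      ∀ c₀ : ℝ, 0 < c₀ → ∀ l : ℕ, 1 ≤ l → ∃ W κ : ℝ, 0 < W ∧ 0 < κ ∧
        ∀ m K : ℕ, 1 ≤ K → ∃ c : ℝ, 0 < c ∧ ∀ δ : ℝ, 0 < δ → ∃ B : ℕ, ∀ᶠ X : ℕ in atTop, ∀ Y D : ℕ,
        (X : ℝ) ^ θ ≤ Y → 2 * Y ≤ X → Real.log X ^ B ≤ D → D ≤ Y → ∀ A : Set ℕ, A ⊆ R d' d r →
        c₀ * Y / Real.log X ^ 3 ≤ ((A ∩ Set.Ioc X (X + Y)).ncard : ℝ) →
        κ * Real.log X ^ (3 * l) ≤ ({h : Fin l → ℕ | (∀ i, 0 < h i ∧ (h i : ℝ) ≤ W * Real.log X ^ 3) ∧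
          κ * Y / Real.log X ^ (3 * (l + 1)) ≤ ({n | n ∈ Typical A 3 c δ B K m X Y D ∧
            NextGaps A h n}.ncard : ℝ)}.ncard : ℝ) := by
  obtain ⟨r₀, hr₀, h⟩ := Pool.Agent.Helper32K9.Trip.main hd θ hθ hθ1
  refine ⟨r₀, hr₀, fun r hr => ?_⟩
  obtain ⟨h1, -, h2⟩ := h r hr
  refine ⟨fun n hn => ?_, fun n hn => hn.1, h1, fun c₀ hc₀ l hl => ?_⟩
  · exact Pool.Agent.Helper32K9.Trip.prime_mem (hr₀.trans hr) ⟨hd.1, hd.2.1⟩ hn.1 hn.2.1 hn.2.2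
  · obtain ⟨W, κ, hW, hκ, h4⟩ := h2 c₀ hc₀ l hl
    refine ⟨W, κ, hW, hκ, fun m K hK => ?_⟩
    obtain ⟨c, hc, h5⟩ := h4 m K hK
    refine ⟨c, hc, fun δ hδ => ?_⟩
    obtain ⟨B, h6⟩ := h5 δ hδ
    refine ⟨B, ?_⟩
    filter_upwards [h6] with X hX Y D k1 k2 k3 k4 A hA k5
    exact hX Y D k1 k2 k3 k4 A (fun n hn q hq hdv => hA hn q hq hdv) k5

end Pool.Agent.Results.MP_1039f5_nt.TypicalGapVectors
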