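import Pool.Agent.Helper82K9.PW.PW9

/-!
# The uniform Hardy-Littlewood asymptotic for prime triples, along almost all polynomials congruent to `n`

The question asks for the asymptotic formula for the number of the prime triples `p - d, p - d', p`, uniformly over
`0 < d' < d ≤ (log x) ^ 2`. We count the triples `n, n + a, n + b` (with `a = d - d'`, `b = d`) for which the values
`P(n), P(n + a), P(n + b)` of ONE integer polynomial `P` are primes (up to the sign); for `P(n) = n` this is the question.
We prove the asymptotic formula of the question, with the singular series of `{0, a, b}` and a relative error, for almost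
all integer polynomials `P` of degree at most `m`, `m ≥ 5`, with coefficients at most `H`, which are congruent to the
polynomial `n` modulo every prime `p ≤ z = [(log log H) / 2]`. It is uniform over ALL pairs `0 < a < b ≤ x`, where the
length `x` is anything between a large constant times `(log H) ^ 3` and an arbitrary power of `log H`. The same is proved
in every other residue class `P₀` of polynomials modulo the primes `p ≤ z`, with the product of the local densities of
`P₀`.

From the starting files: the theorems of Siegel and Walfisz and the prime number theorem in the forms of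
`Pool.Agent.H343R2.EH` and `Pool.Agent.H442R2.EHI`, and Mertens' theorem (`Pool.Agent.Erdos456`).
From Mathlib: `Fintype.piFinset fun i => S i`: the functions `a` with `a i ∈ S i` for all `i`; `⌊t⌋₊`: the integer part;
`∏' p : Nat.Primes, f p`: the infinite product over the primes.
-/

set_option autoImplicit false

namespace Pool.Agent.Results.MP_1039f5_nt.UniformTriplesInClasses

open Finset

open Classical in
/-- The polynomials of degree at most `m` with integer coefficients of absolute value at most `H`, given by their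
coefficients, which are congruent to the polynomial `P₀` modulo every prime `p ≤ z`. -/
noncomputable def inClass {m : ℕ} (H z : ℕ) (P₀ : Fin (m + 1) → ℤ) : Finset (Fin (m + 1) → ℤ) :=
  (Fintype.piFinset (fun _ => Icc (-(H : ℤ)) H)).filter (fun P => ∀ p : ℕ, p.Prime → p ≤ z → ∀ j, (p : ℤ) ∣ P j - P₀ j)

/-- The polynomial `n`. -/
def identity (m : ℕ) : Fin (m + 1) → ℤ := fun j => if (j : ℕ) = 1 then 1 else 0

/-- The value at `n` of the polynomial with the coefficients `P j`. -/
def value {m : ℕ} (P : Fin (m + 1) → ℤ) (n : ℕ) : ℤ := ∑ j, P j * (n : ℤ) ^ (j : ℕ)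

open Classical in
/-- The number of the elements of `S` with the property `F`. -/
noncomputable def number {α : Type} (S : Finset α) (F : α → Prop) : ℝ := ((S.filter F).card : ℝ)

/-- The number of the `n ≤ y` for which `|P(n)|`, `|P(n + a)|` and `|P(n + b)|` are primes. -/
noncomputable def triples {m : ℕ} (P : Fin (m + 1) → ℤ) (a b y : ℕ) : ℝ := number (Icc 1 y) (fun n =>
  (value P n).natAbs.Prime ∧ (value P (n + a)).natAbs.Prime ∧ (value P (n + b)).natAbs.Prime)

/-- The singular series of `{0, a, b}`. -/
noncomputable def series (a b : ℕ) : ℝ := ∏' p : Nat.Primes,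
  (1 - ((({0, a, b} : Finset ℕ).image (fun n => n % (p : ℕ))).card : ℝ) / ((p : ℕ) : ℝ)) / (1 - 1 / ((p : ℕ) : ℝ)) ^ 3

/-- The primes up to `z`. -/
def primes (z : ℕ) : Finset ℕ := (Icc 1 z).filter Nat.Prime

/-- The product over the primes `p ≤ z` of the factors `(1 - ν(p) / p) / (1 - 1 / p) ^ 3`, where `ν(p)` is the number of
the `n` modulo `p` for which `p` divides one of the values `P(n)`, `P(n + a)`, `P(n + b)`. -/
noncomputable def singular {m : ℕ} (z a b : ℕ) (P : Fin (m + 1) → ℤ) : ℝ :=
  ∏ p ∈ primes z, (1 - number (range p) (fun n =>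
    (p : ℤ) ∣ value P n ∨ (p : ℤ) ∣ value P (n + a) ∨ (p : ℤ) ∣ value P (n + b)) / p) / (1 - 1 / (p : ℝ)) ^ 3

/-- Half of `log log H`, rounded down. -/
noncomputable def cutoff (H : ℕ) : ℕ := ⌊Real.log (Real.log H) / 2⌋₊

lemma number_le {α : Type} (S : Finset α) (F G : α → Prop) [DecidablePred G] (h : ∀ a ∈ S, F a → G a) :
    number S F ≤ ((S.filter G).card : ℝ) := by
  classical
  unfold number
  exact Nat.cast_le.2 (card_le_card fun a ha => mem_filter.2 ⟨(mem_filter.1 ha).1, h a (mem_filter.1 ha).1 (mem_filter.1 ha).2⟩)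

lemma inClass_eq {m : ℕ} (H z : ℕ) (P₀ : Fin (m + 1) → ℤ) :
    Pool.Agent.Helper32K9.QB.Cl m H (primorial z) P₀ = inClass H z P₀ := by
  classical
  unfold Pool.Agent.Helper32K9.QB.Cl inClass Pool.Agent.Helper82K9.PR.Bx
  ext P
  rw [mem_filter, mem_filter]
  apply and_congr_right
  intro _
  constructor
  · intro h p hp hpz j
    have h1 : (p : ℤ) ∣ ((primorial z : ℕ) : ℤ) := by exact_mod_cast hp.dvd_primorial_iff.2 hpz
    exact h1.trans (h j)
  · intro h j
    rw [Int.natCast_dvd]
    apply Finset.prod_primes_dvd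
    · intro p hp
      exact (mem_filter.1 hp).2.prime
    · intro p hp
      rw [mem_filter, mem_range] at hp
      exact Int.natCast_dvd.1 (h p hp.2 (by omega) j)

/-- the shifts -/
def shifts (a b : ℕ) : Fin 3 → ℕ := ![0, a, b]

lemma shifts_inj (a b : ℕ) (ha : 0 < a) (hab : a < b) : Function.Injective (shifts a b) := by
  intro i j hij
  unfold shifts at hij
  fin_cases i <;> fin_cases j <;> simp at hij ⊢ <;> omega

lemma shifts_all (a b : ℕ) (F : ℕ → Prop) : (∀ i, F (shifts a b i)) ↔ F 0 ∧ F a ∧ F b := by
  unfold shifts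
  constructor
  · intro h
    exact ⟨h 0, h 1, h 2⟩
  · rintro ⟨h0, h1, h2⟩ i
    fin_cases i
    · exact h0
    · exact h1
    · exact h2

lemma shifts_ex (a b : ℕ) (F : ℕ → Prop) : (∃ i, F (shifts a b i)) ↔ F 0 ∨ F a ∨ F b := by
  unfold shifts
  constructor
  · rintro ⟨i, h⟩
    fin_cases i
    · exact Or.inl h
    · exact Or.inr (Or.inl h)
    · exact Or.inr (Or.inr h)
  · rintro (h | h | h)
    · exact ⟨0, h⟩
    · exact ⟨1, h⟩
    · exact ⟨2, h⟩

lemma image_shifts (a b : ℕ) : univ.image (shifts a b) = {0, a, b} := by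
  ext c
  rw [mem_image]
  simp only [mem_univ, true_and]
  rw [shifts_ex a b (fun t => t = c)]
  simp only [mem_insert, mem_singleton, eq_comm]

lemma prime_eq {m : ℕ} (H a b : ℕ) (v : Fin (m + 1) → ℤ) (n : ℕ) [Decidable (((value v n).natAbs.Prime ∧
    (value v (n + a)).natAbs.Prime ∧ (value v (n + b)).natAbs.Prime))] :
    Pool.Agent.Helper82K9.PR.FF (Real.log H) (shifts a b) (fun _ _ => 0) v n =
      if ((value v n).natAbs.Prime ∧ (value v (n + a)).natAbs.Prime ∧ (value v (n + b)).natAbs.Prime) then
        Real.log H ^ 3 else 0 := by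
  unfold Pool.Agent.Helper82K9.PR.FF Pool.Agent.Helper82K9.PR.om
  have key := shifts_all a b (fun t => (value v (n + t)).natAbs.Prime)
  simp only [add_zero] at key
  by_cases hall : ∀ i, (value v (n + shifts a b i)).natAbs.Prime
  · rw [if_pos (key.1 hall)]
    have : ∀ i ∈ (univ : Finset (Fin 3)), (if (Pool.Agent.Helper82K9.PR.pv v (n + shifts a b i) + 0).natAbs.Prime then
        Real.log H else 0) = Real.log H := fun i _ => if_pos (by rw [add_zero]; exact hall i)
    rw [prod_congr rfl this, prod_const, card_univ, Fintype.card_fin]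
  · rw [if_neg (fun h => hall (key.2 h))]
    push Not at hall
    obtain ⟨i, hi⟩ := hall
    exact prod_eq_zero (mem_univ i) (if_neg (by rw [add_zero]; exact hi))

lemma sum_eq {m : ℕ} (H a b y : ℕ) (v : Fin (m + 1) → ℤ) :
    ∑ n ∈ Icc 1 y, Pool.Agent.Helper82K9.PR.FF (Real.log H) (shifts a b) (fun _ _ => 0) v n =
      triples v a b y * Real.log H ^ 3 := by
  classical
  rw [sum_congr rfl (fun n _ => prime_eq H a b v n), ← sum_filter, sum_const, nsmul_eq_mul]
  unfold triples number
  congr 3
  ext n
  simp only [mem_filter]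

lemma singular_eq {m : ℕ} (z a b : ℕ) (P : Fin (m + 1) → ℤ) :
    Pool.Agent.Helper82K9.PR.SS z (shifts a b) P = singular z a b P := by
  unfold Pool.Agent.Helper82K9.PR.SS singular primes
  apply prod_congr rfl
  intro p _
  have e : ((Pool.Agent.Helper82K9.PR.nu (shifts a b) P p : ℕ) : ℝ) = number (range p) (fun n =>
    (p : ℤ) ∣ value P n ∨ (p : ℤ) ∣ value P (n + a) ∨ (p : ℤ) ∣ value P (n + b)) := by
    unfold Pool.Agent.Helper82K9.PR.nu number
    congr 2
    ext n
    simp only [mem_filter]
    have key := shifts_ex a b (fun t => (p : ℤ) ∣ value P (n + t))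
    simp only [add_zero] at key
    rw [← key]
    rfl
  rw [e]

lemma card_eq (a b : ℕ) (ha : 0 < a) (hab : a < b) : ({0, a, b} : Finset ℕ).card = 3 := by
  rw [← image_shifts, card_image_of_injective _ (shifts_inj a b ha hab), card_univ, Fintype.card_fin]

lemma series_eq (a b : ℕ) (ha : 0 < a) (hab : a < b) : Pool.Agent.Helper82K9.PW.SSQ {0, a, b} = series a b := by
  unfold Pool.Agent.Helper82K9.PW.SSQ series
  congr 1
  ext p
  unfold Pool.Agent.Helper82K9.PW.fac Pool.Agent.Helper82K9.PW.nuQ
  rw [card_eq a b ha hab]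

lemma series_ne (a b : ℕ) (h : series a b ≠ 0) (p : ℕ) (hp : p.Prime) :
    Pool.Agent.Helper82K9.PW.nuQ {0, a, b} p < p := by
  have h1 : Pool.Agent.Helper82K9.PW.nuQ {0, a, b} p ≤ p := by
    unfold Pool.Agent.Helper82K9.PW.nuQ
    have h2 : ({0, a, b} : Finset ℕ).image (fun q => q % p) ⊆ range p := by
      intro c hc
      rw [mem_image] at hc
      obtain ⟨q, _, rfl⟩ := hc
      exact mem_range.2 (Nat.mod_lt _ hp.pos)
    have := card_le_card h2
    rwa [card_range] at this
  refine lt_of_le_of_ne h1 fun h3 => h ?_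
  unfold series
  apply tprod_of_exists_eq_zero
  refine ⟨⟨p, hp⟩, ?_⟩
  have hp0 : (p : ℝ) ≠ 0 := by exact_mod_cast hp.ne_zero
  have h4 : (({0, a, b} : Finset ℕ).image (fun n => n % p)).card = p := h3
  show (1 - ((({0, a, b} : Finset ℕ).image (fun n => n % p)).card : ℝ) / (p : ℝ)) / (1 - 1 / (p : ℝ)) ^ 3 = 0
  rw [h4, div_self hp0, sub_self, zero_div]

/-- Let `m ≥ 5`, `B` and `ε > 0` be given. There is `A` such that for all `H ≥ A`, all `x` with
`A (log H) ^ 3 ≤ x ≤ (log H) ^ B` and ALL `0 < a < b ≤ x` the following holds, with `z = cutoff H`.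

* If the singular series of `{0, a, b}` is not `0`: for all but `ε (number)` of the integer polynomials `P` of degree at
  most `m` with coefficients at most `H` which are congruent to the polynomial `n` modulo every prime `p ≤ z`, the number
  of the `n ≤ y` for which `|P(n)|`, `|P(n + a)|`, `|P(n + b)|` are primes, times `(log H) ^ 3`, is `series a b * y` up to
  `ε * series a b * x`, for all `y ≤ x`.
* For every integer polynomial `P₀`: for all but `ε (number)` of the integer polynomials `P` of degree at most `m` with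
  coefficients at most `H` which are congruent to `P₀` modulo every prime `p ≤ z`, this number, times `(log H) ^ 3`, is
  `singular z a b P₀ * y` up to `ε * (1 + singular z a b P₀) * x`, for all `y ≤ x`. -/
theorem result (m : ℕ) (hm : 5 ≤ m) (B : ℕ) (ε : ℝ) (hε : 0 < ε) : ∃ A : ℕ, ∀ H : ℕ, A ≤ H → ∀ x : ℕ,
    A * Real.log H ^ 3 ≤ x → (x : ℝ) ≤ Real.log H ^ B → ∀ a b : ℕ, 0 < a → a < b → b ≤ x →
    (series a b ≠ 0 → number (inClass H (cutoff H) (identity m)) (fun P => ¬ ∀ y ≤ x,
      |triples P a b y * Real.log H ^ 3 - series a b * y| ≤ ε * series a b * x) ≤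
      ε * (inClass H (cutoff H) (identity m)).card) ∧
    ∀ P₀ : Fin (m + 1) → ℤ, number (inClass H (cutoff H) P₀) (fun P => ¬ ∀ y ≤ x,
      |triples P a b y * Real.log H ^ 3 - singular (cutoff H) a b P₀ * y| ≤
        ε * (1 + singular (cutoff H) a b P₀) * x) ≤ ε * (inClass H (cutoff H) P₀).card := by
  classical
  obtain ⟨A1, hA1, g1⟩ := Pool.Agent.Helper82K9.PW.classN 3 m (by norm_num) (by omega) B ε hε
  obtain ⟨A2, hA2, g2⟩ := Pool.Agent.Helper82K9.PW.classS 3 m (by norm_num) (by omega) B ε hε
  refine ⟨max A1 A2, fun H hH x hx hxB a b ha hab hb => ?_⟩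
  have hH3 : 3 ≤ H := hA1.trans ((le_max_left _ _).trans hH)
  have hL0 : 0 ≤ Real.log H := Real.log_natCast_nonneg H
  have hxA1 : A1 * Real.log H ^ 3 ≤ x := by
    refine le_trans ?_ hx
    apply mul_le_mul_of_nonneg_right _ (by positivity)
    exact_mod_cast le_max_left _ _
  have hxA2 : A2 * Real.log H ^ 3 ≤ x := by
    refine le_trans ?_ hx
    apply mul_le_mul_of_nonneg_right _ (by positivity)
    exact_mod_cast le_max_right _ _
  have hinj := shifts_inj a b ha hab
  have hsx : ∀ i, shifts a b i ≤ x := by
    rw [shifts_all a b (fun t => t ≤ x)]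
    omega
  have hz : Pool.Agent.Helper82K9.PR.zH H = cutoff H := rfl
  have hid : Pool.Agent.Helper82K9.PW.idP m = identity m := rfl
  refine ⟨fun hne => ?_, fun P₀ => ?_⟩
  · have h1 := g1 H ((le_max_left _ _).trans hH) x hxA1 hxB (shifts a b) hinj hsx (by
      rw [image_shifts]
      exact series_ne a b hne)
    rw [hz, hid, image_shifts, series_eq a b ha hab, inClass_eq] at h1
    refine le_trans (number_le _ _ _ fun v hv h3 => ?_) h1
    push Not at h3
    obtain ⟨y, hy, h4⟩ := h3
    refine ⟨y, hy, ?_⟩
    rw [sum_eq]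
    exact h4
  · have h1 := g2 H ((le_max_right _ _).trans hH) x hxA2 hxB (shifts a b) hinj hsx P₀
    rw [hz, singular_eq, inClass_eq] at h1
    refine le_trans (number_le _ _ _ fun v hv h3 => ?_) h1
    push Not at h3
    obtain ⟨y, hy, h4⟩ := h3
    refine ⟨y, hy, ?_⟩
    rw [sum_eq]
    exact h4

end Pool.Agent.Results.MP_1039f5_nt.UniformTriplesInClasses
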